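import Pool.Agent.Helper53.BO.LD
import Pool.Agent.Helper66.BO.St2

/-! Reduction of the number of elements to the number of rows: extreme point plus
linear discrepancy at most twice hereditary discrepancy. -/

namespace Pool.Agent.Helper43.BF

open scoped Classical
open Finset

/-- if more than `card J` coordinates are fractional, one can be made integral. -/
theorem move_once {V J : Type} [Fintype V] [Fintype J] (c : J → V → ℝ) (y : V → ℝ)
    (hy : ∀ i, |y i| ≤ 1) (hc : Fintype.card J < (Finset.univ.filter fun i => |y i| < 1).card) :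
    ∃ y' : V → ℝ, (∀ i, |y' i| ≤ 1) ∧ (∀ j, ∑ i, c j i * y' i = ∑ i, c j i * y i) ∧
      (Finset.univ.filter fun i => |y' i| < 1).card < (Finset.univ.filter fun i => |y i| < 1).card := by
  set F : Finset V := Finset.univ.filter fun i => |y i| < 1 with hF
  -- kernel vector
  let L : (F → ℝ) →ₗ[ℝ] (J → ℝ) :=
    { toFun := fun h j => ∑ i : F, c j i * h i
      map_add' := by
        intro a b; funext j; simp [mul_add, Finset.sum_add_distrib]
      map_smul' := by
        intro r a; funext j; simp only [Pi.smul_apply, smul_eq_mul, RingHom.id_apply]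
        rw [Finset.mul_sum]; exact Finset.sum_congr rfl fun i _ => by ring }
  have hker : LinearMap.ker L ≠ ⊥ := by
    apply LinearMap.ker_ne_bot_of_finrank_lt
    rw [Module.finrank_fintype_fun_eq_card, Module.finrank_fintype_fun_eq_card]
    simpa using hc
  obtain ⟨h, hh, hne⟩ := (Submodule.ne_bot_iff _).1 hker
  have hL : ∀ j, ∑ i : F, c j i * h i = 0 := fun j => congrFun (LinearMap.mem_ker.1 hh) j
  -- extension to V
  let g : V → ℝ := fun i => if hi : i ∈ F then h ⟨i, hi⟩ else 0
  have hg : ∀ j, ∑ i, c j i * g i = 0 := by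
    intro j
    have h1 : ∑ i, c j i * g i = ∑ i ∈ F, c j i * g i := by
      symm
      apply Finset.sum_subset (Finset.subset_univ _)
      intro i _ hi
      simp [g, hi]
    rw [h1, ← Finset.sum_coe_sort F (fun i => c j i * g i), ← hL j]
    refine Finset.sum_congr rfl fun i _ => ?_
    simp [g, i.2]
  have hgF : ∀ i, i ∉ F → g i = 0 := by intro i hi; simp [g, hi]
  obtain ⟨i0, hi0⟩ : ∃ i, g i ≠ 0 := by
    by_contra hcon
    push Not at hcon
    apply hne
    funext i
    have := hcon i
    simpa [g, i.2] using this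
  let P : Finset V := Finset.univ.filter fun i => g i ≠ 0
  have hP : P.Nonempty := ⟨i0, by simp [P, hi0]⟩
  have hPF : ∀ i ∈ P, |y i| < 1 := by
    intro i hi
    by_contra hcon
    have : i ∉ F := by simp [hF, hcon]
    exact (by simpa [P] using hi : g i ≠ 0) (hgF i this)
  -- time to hit
  let τ : V → ℝ := fun i => if 0 < g i then (1 - y i) / g i else (-1 - y i) / g i
  obtain ⟨i1, hi1, hmin⟩ := P.exists_min_image τ hP
  have hτpos : ∀ i ∈ P, 0 < τ i := by
    intro i hi
    have h1 := abs_lt.1 (hPF i hi)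
    have h2 : g i ≠ 0 := by simpa [P] using hi
    simp only [τ]
    split_ifs with h3
    · exact div_pos (by linarith) h3
    · have h4 : g i < 0 := lt_of_le_of_ne (not_lt.1 h3) h2
      exact div_pos_of_neg_of_neg (by linarith) h4
  set s := τ i1 with hs
  have hs0 : 0 < s := hτpos i1 hi1
  have hbound : ∀ i, |y i + s * g i| ≤ 1 := by
    intro i
    by_cases hi : i ∈ P
    · have h1 := abs_lt.1 (hPF i hi)
      have h2 : g i ≠ 0 := by simpa [P] using hi
      have h3 : s ≤ τ i := hmin i hi
      rw [abs_le]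
      simp only [τ] at h3
      split_ifs at h3 with h4
      · rw [le_div_iff₀ h4] at h3
        constructor
        · have := mul_pos hs0 h4; linarith
        · linarith
      · have h5 : g i < 0 := lt_of_le_of_ne (not_lt.1 h4) h2
        rw [le_div_iff_of_neg h5] at h3
        constructor
        · linarith
        · have := mul_neg_of_pos_of_neg hs0 h5; linarith
    · have h2 : g i = 0 := by simpa [P] using hi
      rw [h2]; simpa using hy i
  refine ⟨fun i => y i + s * g i, hbound, ?_, ?_⟩
  · intro j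
    have : ∑ i, c j i * (y i + s * g i) = ∑ i, c j i * y i + s * ∑ i, c j i * g i := by
      rw [Finset.mul_sum, ← Finset.sum_add_distrib]
      exact Finset.sum_congr rfl fun i _ => by ring
    rw [this, hg j]; ring
  · apply Finset.card_lt_card
    rw [Finset.ssubset_iff_of_subset]
    · refine ⟨i1, by simpa [hF] using hPF i1 hi1, ?_⟩
      have h1 := abs_lt.1 (hPF i1 hi1)
      have h2 : g i1 ≠ 0 := by simpa [P] using hi1
      have h3 : |y i1 + s * g i1| = 1 := by
        rw [hs]; simp only [τ]
        split_ifs with h4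
        · rw [div_mul_cancel₀ _ h2]; simp
        · rw [div_mul_cancel₀ _ h2]
          have : y i1 + (-1 - y i1) = -1 := by ring
          rw [this]; simp
      simp [h3]
    · intro i hi
      have hi2 : |y i + s * g i| < 1 := by simpa using hi
      by_contra hcon
      rw [hgF i hcon] at hi2
      apply hcon
      simpa [hF] using hi2

/-- extreme point: same row sums, at most `card J` fractional coordinates. -/
theorem extreme {V J : Type} [Fintype V] [Fintype J] (c : J → V → ℝ) :
    ∀ (k : ℕ) (y : V → ℝ), (∀ i, |y i| ≤ 1) → (Finset.univ.filter fun i => |y i| < 1).card ≤ k →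
    ∃ y' : V → ℝ, (∀ i, |y' i| ≤ 1) ∧ (∀ j, ∑ i, c j i * y' i = ∑ i, c j i * y i) ∧
      (Finset.univ.filter fun i => |y' i| < 1).card ≤ Fintype.card J := by
  intro k
  induction k with
  | zero => intro y hy hk; exact ⟨y, hy, fun _ => rfl, le_trans hk (Nat.zero_le _)⟩
  | succ k ih =>
    intro y hy hk
    by_cases hJ : (Finset.univ.filter fun i => |y i| < 1).card ≤ Fintype.card J
    · exact ⟨y, hy, fun _ => rfl, hJ⟩
    · obtain ⟨y1, h1, h2, h3⟩ := move_once c y hy (not_le.1 hJ)
      obtain ⟨y2, h4, h5, h6⟩ := ih y1 h1 (by omega)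
      exact ⟨y2, h4, fun j => (h5 j).trans (h2 j), h6⟩

/-- if every set of at most `card J` elements can be coloured with error `T`, everything can be
coloured with error `2 T`. -/
theorem reduce {V J : Type} [Fintype V] [Fintype J] (c : J → V → ℝ) (T : ℝ)
    (h : ∀ U : Finset V, U.card ≤ Fintype.card J → ∃ e : V → ℝ, (∀ i ∈ U, |e i| = 1) ∧
      (∀ i, i ∉ U → e i = 0) ∧ ∀ j, |∑ i, c j i * e i| ≤ T) :
    ∃ χ : V → ℝ, (∀ i, |χ i| = 1) ∧ ∀ j, |∑ i, c j i * χ i| ≤ 2 * T := by
  obtain ⟨y, hy, hs, hF⟩ := extreme c (Fintype.card V) (fun _ => 0) (by simp)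
    (Finset.card_le_univ _)
  obtain ⟨χ, h1, _, h3⟩ := Pool.Agent.Helper53.BO.ld_proof V J c {i | |y i| < 1} T (by
    intro U hU
    obtain ⟨e, he1, he2, he3⟩ := h U.toFinset (le_trans (Finset.card_le_card (by
      intro i hi
      have := hU (Set.mem_toFinset.1 hi)
      simpa using this)) hF)
    exact ⟨e, fun i hi => he1 i (Set.mem_toFinset.2 hi),
      fun i hi => he2 i (fun hc => hi (Set.mem_toFinset.1 hc)), he3⟩) y hy (by
    intro i hi
    have h1 : ¬ |y i| < 1 := hi
    exact le_antisymm (hy i) (not_lt.1 h1))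
  refine ⟨χ, h1, fun j => ?_⟩
  have h4 : ∑ i, c j i * χ i = ∑ i, c j i * (χ i - y i) := by
    have h5 : ∑ i, c j i * y i = 0 := by rw [hs j]; simp
    have h6 : ∑ i, c j i * (χ i - y i) = ∑ i, c j i * χ i - ∑ i, c j i * y i := by
      rw [← Finset.sum_sub_distrib]
      exact Finset.sum_congr rfl fun i _ => by ring
    rw [h6, h5, sub_zero]
  rw [h4]
  exact h3 j

/-- the bound of Theorem P as a function of the number of elements -/
noncomputable def bd (t N : ℕ) : ℝ := √t +
  √(1 + Real.log t + Real.log (1 + Real.log ((N : ℝ) + 1))) *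
  (1 + Real.log (1 + Real.log t + Real.log (1 + Real.log ((N : ℝ) + 1))))

theorem bd_mono {t N M : ℕ} (ht : 1 ≤ t) (h : N ≤ M) : bd t N ≤ bd t M := by
  have h0 : (0 : ℝ) ≤ Real.log t := Real.log_nonneg (by exact_mod_cast ht)
  have hN : (0 : ℝ) ≤ Real.log ((N : ℝ) + 1) := Real.log_nonneg (by
    have : (0 : ℝ) ≤ N := Nat.cast_nonneg N
    linarith)
  have h1 : Real.log ((N : ℝ) + 1) ≤ Real.log ((M : ℝ) + 1) :=
    Real.log_le_log (by positivity) (by
      have : (N : ℝ) ≤ M := by exact_mod_cast h
      linarith)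
  have h2 : Real.log (1 + Real.log ((N : ℝ) + 1)) ≤ Real.log (1 + Real.log ((M : ℝ) + 1)) :=
    Real.log_le_log (by linarith) (by linarith)
  have h3 : (0 : ℝ) ≤ Real.log (1 + Real.log ((N : ℝ) + 1)) := Real.log_nonneg (by linarith)
  have h4 : Real.log (1 + Real.log t + Real.log (1 + Real.log ((N : ℝ) + 1)))
      ≤ Real.log (1 + Real.log t + Real.log (1 + Real.log ((M : ℝ) + 1))) :=
    Real.log_le_log (by linarith) (by linarith)
  have h5 : 0 ≤ Real.log (1 + Real.log t + Real.log (1 + Real.log ((N : ℝ) + 1))) :=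
    Real.log_nonneg (by linarith)
  unfold bd
  have h6 := Real.sqrt_le_sqrt (show 1 + Real.log t + Real.log (1 + Real.log ((N : ℝ) + 1)) ≤
    1 + Real.log t + Real.log (1 + Real.log ((M : ℝ) + 1)) by linarith)
  have h7 := mul_le_mul h6 (show 1 + Real.log (1 + Real.log t + Real.log (1 + Real.log ((N : ℝ) + 1)))
      ≤ 1 + Real.log (1 + Real.log t + Real.log (1 + Real.log ((M : ℝ) + 1))) by linarith)
      (by linarith) (Real.sqrt_nonneg _)
  linarith

/-- Theorem P with the smaller of the number of elements and the number of sets. -/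
theorem min_form {C : ℝ} (hC : 0 ≤ C) (hP : Pool.Agent.Helper66.BO.FinP0 C)
    (n m t : ℕ) (S : Fin m → Finset (Fin n)) (ht : 1 ≤ t)
    (hS : ∀ v, (Finset.univ.filter fun j => v ∈ S j).card ≤ t) :
      ∃ χ : Fin n → ℤ, (∀ v, χ v = 1 ∨ χ v = -1) ∧
        ∀ j, |((∑ v ∈ S j, χ v : ℤ) : ℝ)| ≤ 2 * C * (√t +
          √(1 + Real.log t + Real.log (1 + Real.log (((min n m : ℕ) : ℝ) + 1))) *
          (1 + Real.log (1 + Real.log t + Real.log (1 + Real.log (((min n m : ℕ) : ℝ) + 1))))) := by
  let c : Fin m → Fin n → ℝ := fun j v => if v ∈ S j then 1 else 0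
  obtain ⟨χ, h1, h2⟩ := reduce c (C * bd t (min n m)) (by
    intro U hU
    rw [Fintype.card_fin] at hU
    obtain ⟨e, he1, he2⟩ := hP U (Fin m) (fun j => Finset.univ.filter fun u : U => (u : Fin n) ∈ S j)
      t ht (by
        intro v
        simpa using hS v)
    refine ⟨fun i => if hi : i ∈ U then ((e ⟨i, hi⟩ : ℤ) : ℝ) else 0, ?_, ?_, ?_⟩
    · intro i hi
      simp only [hi, dif_pos]
      rcases he1 ⟨i, hi⟩ with h | h <;> rw [h] <;> simp
    · intro i hi
      simp [hi]
    · intro j
      have h3 := he2 j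
      have hcard : Fintype.card U ≤ min n m := by
        rw [Fintype.card_coe]
        exact le_min (le_trans (Finset.card_le_univ U) (by simp)) hU
      have h4 : bd t (Fintype.card U) ≤ bd t (min n m) := bd_mono ht hcard
      have h5 : ∑ i, c j i * (if hi : i ∈ U then ((e ⟨i, hi⟩ : ℤ) : ℝ) else 0)
          = ((∑ v ∈ Finset.univ.filter (fun u : U => (u : Fin n) ∈ S j), e v : ℤ) : ℝ) := by
        push_cast
        rw [Finset.sum_filter]
        have h6 : ∑ i, c j i * (if hi : i ∈ U then ((e ⟨i, hi⟩ : ℤ) : ℝ) else 0)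
            = ∑ i ∈ U, c j i * (if hi : i ∈ U then ((e ⟨i, hi⟩ : ℤ) : ℝ) else 0) := by
          symm
          apply Finset.sum_subset (Finset.subset_univ _)
          intro i _ hi
          simp [hi]
        rw [h6, ← Finset.sum_coe_sort U]
        refine Finset.sum_congr rfl fun i _ => ?_
        simp only [c, i.2, dif_pos]
        split_ifs <;> simp
      rw [h5]
      refine le_trans h3 ?_
      exact mul_le_mul_of_nonneg_left h4 hC)
  refine ⟨fun v => if χ v = 1 then 1 else -1, fun v => by
    by_cases h : χ v = 1 <;> simp [h], fun j => ?_⟩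
  have h3 := h2 j
  have h4 : ((∑ v ∈ S j, (if χ v = 1 then 1 else -1 : ℤ) : ℤ) : ℝ) = ∑ i, c j i * χ i := by
    push_cast
    have h5 : ∑ i, c j i * χ i = ∑ i, (if i ∈ S j then χ i else 0) :=
      Finset.sum_congr rfl fun i _ => by simp only [c]; split_ifs <;> simp
    rw [h5, ← Finset.sum_filter]
    have h6 : (Finset.univ.filter fun i => i ∈ S j) = S j := by ext; simp
    rw [h6]
    refine Finset.sum_congr rfl fun i _ => ?_
    rcases eq_or_eq_neg_of_abs_eq (h1 i) with h | h
    · simp [h]
    · rw [h]; norm_num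
  rw [h4]
  have h5 : 2 * (C * bd t (min n m)) = 2 * C * bd t (min n m) := by ring
  rw [h5] at h3
  exact h3

end Pool.Agent.Helper43.BF
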